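import Pool.Agent.MP_9673d9_co.Conv.LiftA
import Pool.Agent.MP_9673d9_co.Conv.CoverA
import Pool.Agent.MP_9673d9_co.Conv.Proj

/-!
# Balanced planes and convex subsets of projections

Let `S` be a finite set in three-space.  If some projection of `S` to a plane has no large subset in convex
position, then some plane through two points of `S` has small imbalance: the imbalance is at most of the order of
the iterated logarithm of the size of the largest subset in convex position.  In particular this holds for the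
sets that are covered by `k` lines, with the iterated logarithm of `k`.
-/

set_option autoImplicit false

open Finset

namespace Pool.Agent.Results.MP_9673d9_co.ConvexProjections

/-- some plane through two distinct points of `S` has imbalance at most `C` -/
def Balanced (S : Finset (Fin 3 → ℝ)) (C : ℤ) : Prop :=
  ∃ p ∈ S, ∃ q ∈ S, p ≠ q ∧
    ∃ v : Fin 3 → ℝ, v ≠ 0 ∧ ∃ c : ℝ,
      (∑ i, v i * p i = c) ∧ (∑ i, v i * q i = c) ∧
      |((S.filter (fun x => ∑ i, v i * x i < c)).card : ℤ)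
        - ((S.filter (fun x => c < ∑ i, v i * x i)).card : ℤ)| ≤ C

/-- the image of `Z` under the projection `x ↦ (v · x, w · x)` is in strictly convex position: every point of `Z`
is the unique maximum on `Z` of some functional `a (v · x) + b (w · x)` -/
def ConvexProj (v w : Fin 3 → ℝ) (Z : Finset (Fin 3 → ℝ)) : Prop :=
  ∀ z ∈ Z, ∃ a b : ℝ, ∀ x ∈ Z, x ≠ z →
    a * (∑ i, v i * x i) + b * (∑ i, w i * x i) < a * (∑ i, v i * z i) + b * (∑ i, w i * z i)

/-- the functional `x ↦ v · x` -/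
noncomputable def lin (v : Fin 3 → ℝ) : (Fin 3 → ℝ) →ₗ[ℝ] ℝ := ∑ i, v i • LinearMap.proj i

theorem lin_apply (v x : Fin 3 → ℝ) : lin v x = ∑ i, v i * x i := by
  simp [lin]

theorem partA (S : Finset (Fin 3 → ℝ)) (v w : Fin 3 → ℝ) (hS : 2 ≤ S.card)
    (hvw : LinearIndependent ℝ ![v, w])
    (hinj : ∀ x ∈ S, ∀ y ∈ S, ∑ i, v i * x i = ∑ i, v i * y i → ∑ i, w i * x i = ∑ i, w i * y i → x = y)
    (s m : ℕ) (hs : 1 ≤ s) (hm : 2 ≤ m) (hnum : 120 * s * (m + 1) < 2 ^ s)
    (hN : ∀ Z ⊆ S, ConvexProj v w Z → Z.card ≤ 2 ^ m) : Balanced S (2 * (s : ℤ) + 1) := by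
  refine Pool.Agent.MP_9673d9_co.Conv.liftA S hS (lin v) (lin w) ?_ ?_ hs hm hnum ?_
  · intro a b hab
    rw [LinearIndependent.pair_iff] at hvw
    apply hvw a b
    funext i
    have h1 : (a • lin v + b • lin w) (Pi.single i 1) = 0 := by rw [hab]; rfl
    simpa [lin, Pi.single_apply] using h1
  · intro x hx y hy h1 h2
    rw [lin_apply, lin_apply] at h1 h2
    exact hinj x hx y hy h1 h2
  · intro Z hZ h
    refine hN Z hZ fun z hz => ?_
    obtain ⟨a, b, hab⟩ := h z hz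
    refine ⟨a, b, fun x hx hne => ?_⟩
    have h1 := hab x hx hne
    simpa only [lin_apply] using h1

theorem partB (S : Finset (Fin 3 → ℝ)) (hS : 2 ≤ S.card) (k : ℕ) (p u : Fin k → (Fin 3 → ℝ))
    (hc : ∀ x ∈ S, ∃ i, ∃ t : ℝ, x = p i + t • u i) :
    Balanced S (4 * (Nat.clog 2 (Nat.clog 2 k + 3) : ℤ) + 25) := by
  obtain ⟨l1, l2, h1, h2⟩ := Pool.Agent.MP_9673d9_co.Conv.exists_proj S
  have h3 := Pool.Agent.MP_9673d9_co.Conv.liftA S hS l1 l2 h1 (fun x hx y hy h _ => h2 x hx y hy h)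
    (s := 2 * Nat.clog 2 (Nat.clog 2 k + 3) + 12) (m := Nat.clog 2 k + 2) (by omega) (by omega)
    (Pool.Agent.MP_9673d9_co.Conv.num_ineq (Nat.clog 2 k + 2) (Nat.clog 2 (Nat.clog 2 k + 3))
      (Nat.le_pow_clog (by norm_num) _)) (by
        intro Z hZ h
        have h4 : Pool.Agent.MP_9673d9_co.Conv.Conv3 Z := by
          intro z hz
          obtain ⟨a, b, hab⟩ := h z hz
          refine ⟨a • l1 + b • l2, fun x hx hne => ?_⟩
          simpa using hab x hx hne
        have h5 := Pool.Agent.MP_9673d9_co.Conv.cover_lines h4 k p u (fun x hx => hc x (hZ hx))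
        have h6 : k ≤ 2 ^ Nat.clog 2 k := Nat.le_pow_clog (by norm_num) k
        have h7 : 2 ^ (Nat.clog 2 k + 2) = 4 * 2 ^ Nat.clog 2 k := by rw [pow_add]; ring
        omega)
  have h4 : 2 * ((2 * Nat.clog 2 (Nat.clog 2 k + 3) + 12 : ℕ) : ℤ) + 1 =
      4 * (Nat.clog 2 (Nat.clog 2 k + 3) : ℤ) + 25 := by push_cast; ring
  rw [h4] at h3
  exact h3

theorem result :
    (∀ (S : Finset (Fin 3 → ℝ)) (v w : Fin 3 → ℝ) (s m : ℕ), 2 ≤ S.card → LinearIndependent ℝ ![v, w] →
      (∀ x ∈ S, ∀ y ∈ S, ∑ i, v i * x i = ∑ i, v i * y i → ∑ i, w i * x i = ∑ i, w i * y i → x = y) →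
      1 ≤ s → 2 ≤ m → 120 * s * (m + 1) < 2 ^ s →
      (∀ Z ⊆ S, ConvexProj v w Z → Z.card ≤ 2 ^ m) → Balanced S (2 * (s : ℤ) + 1)) ∧
    (∀ (S : Finset (Fin 3 → ℝ)) (k : ℕ) (p u : Fin k → (Fin 3 → ℝ)), 2 ≤ S.card →
      (∀ x ∈ S, ∃ i, ∃ t : ℝ, x = p i + t • u i) →
      Balanced S (4 * (Nat.clog 2 (Nat.clog 2 k + 3) : ℤ) + 25)) :=
  ⟨fun S v w s m hS hvw hinj hs hm hnum hN => partA S v w hS hvw hinj s m hs hm hnum hN,
    fun S k p u hS hc => partB S hS k p u hc⟩

end Pool.Agent.Results.MP_9673d9_co.ConvexProjections
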