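import Pool.Agent.MP_9673d9_co.Crystal.Main2

/-!
# Finite pieces of crystals

A crystal is a union `F + Λ` of finitely many translates of an additive subgroup `Λ` of `ℝ ^ d`.  If a
finite set `S` differs only in few points from the set of all the points of a crystal in a convex set `K`,
then some hyperplane through two points of `S` has small imbalance, whatever the size of `S`.
-/

set_option autoImplicit false

open Finset

namespace Pool.Agent.Results.MP_9673d9_co.CrystalPieces

/-- some hyperplane through two distinct points of `S` has imbalance at most `C` -/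
def Balanced {d : ℕ} (S : Finset (Fin d → ℝ)) (C : ℤ) : Prop :=
  ∃ p ∈ S, ∃ q ∈ S, p ≠ q ∧
    ∃ v : Fin d → ℝ, v ≠ 0 ∧ ∃ c : ℝ,
      (∑ i, v i * p i = c) ∧ (∑ i, v i * q i = c) ∧
      |((S.filter (fun x => ∑ i, v i * x i < c)).card : ℤ)
        - ((S.filter (fun x => c < ∑ i, v i * x i)).card : ℤ)| ≤ C

/-- the points of the crystal `F + Λ` in the set `K` -/
def Piece {d : ℕ} (K : Set (Fin d → ℝ)) (Λ : AddSubgroup (Fin d → ℝ)) (F : Finset (Fin d → ℝ)) :
    Set (Fin d → ℝ) :=
  {x | x ∈ K ∧ ∃ a ∈ F, x - a ∈ Λ}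

theorem result (d : ℕ) (hd : 2 ≤ d) (S F : Finset (Fin d → ℝ)) (K : Set (Fin d → ℝ))
    (Λ : AddSubgroup (Fin d → ℝ)) (hK : Convex ℝ K) (hP : (Piece K Λ F).Finite)
    (h2 : 2 ≤ ((S : Set (Fin d → ℝ)) ∩ Piece K Λ F).ncard) :
    Balanced S ((2 * (Piece K Λ F \ (S : Set (Fin d → ℝ))).ncard + 3) * F.card - 1 +
      ((S : Set (Fin d → ℝ)) \ Piece K Λ F).ncard) := by
  classical
  have hX : (Piece K Λ F \ (S : Set (Fin d → ℝ))).Finite := hP.subset Set.sdiff_subset
  have hXc : hX.toFinset.card = (Piece K Λ F \ (S : Set (Fin d → ℝ))).ncard :=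
    (Set.ncard_eq_toFinset_card _ hX).symm
  have hSc : (S.filter fun x => x ∈ Piece K Λ F).card =
      ((S : Set (Fin d → ℝ)) ∩ Piece K Λ F).ncard := by
    rw [← Set.ncard_coe_finset, Finset.coe_filter]
    rfl
  have hSd : (S.filter fun x => x ∉ Piece K Λ F).card =
      ((S : Set (Fin d → ℝ)) \ Piece K Λ F).ncard := by
    rw [← Set.ncard_coe_finset, Finset.coe_filter]
    rfl
  obtain ⟨p, hp, q, hq, hpq, v, hv, c, hc1, hc2, hb⟩ :=
    Pool.Agent.MP_9673d9_co.Sweep.coord_case d hd K hK Λ F (S.filter fun x => x ∈ Piece K Λ F)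
      hX.toFinset (fun x hx => (Finset.mem_filter.1 hx).2) (fun x h1 h3 => by
        by_cases hxS : x ∈ S
        · exact Or.inl (Finset.mem_filter.2 ⟨hxS, h1, h3⟩)
        · exact Or.inr ((Set.Finite.mem_toFinset hX).2 ⟨⟨h1, h3⟩, hxS⟩))
      (by rw [hSc]; exact h2)
  refine ⟨p, Finset.mem_of_mem_filter p hp, q, Finset.mem_of_mem_filter q hq, hpq, v, hv, c, hc1,
    hc2, ?_⟩
  have key : ∀ P : (Fin d → ℝ) → Prop,
      ((S.filter fun x => x ∈ Piece K Λ F).filter P).card ≤ (S.filter P).card ∧
      (S.filter P).card ≤ ((S.filter fun x => x ∈ Piece K Λ F).filter P).card +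
        (S.filter fun x => x ∉ Piece K Λ F).card := by
    intro P
    constructor
    · exact Finset.card_le_card (Finset.filter_subset_filter _ (Finset.filter_subset _ _))
    · rw [← Finset.card_filter_add_card_filter_not (s := S.filter P)
        (fun x => x ∈ Piece K Λ F), Finset.filter_comm]
      refine Nat.add_le_add le_rfl (Finset.card_le_card ?_)
      exact Finset.filter_subset_filter _ (Finset.filter_subset _ _)
  have k1 := key fun x => ∑ i, v i * x i < c
  have k2 := key fun x => c < ∑ i, v i * x i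
  rw [← hSd]
  rw [hXc] at hb
  rw [abs_le] at hb ⊢
  constructor
  · have := hb.1
    omega
  · have := hb.2
    omega

end Pool.Agent.Results.MP_9673d9_co.CrystalPieces
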