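import Pool.Agent.MP_9673d9_co.Crystal.Corner

/-!
# Empty sectors between heavy rays

If every plane through two points of a finite set `S` in three-space has imbalance greater than `C`, then
some point of `S` is the apex of three independent heavy rays, two pairs of which bound empty sectors.
-/

set_option autoImplicit false

open Finset

namespace Pool.Agent.Results.MP_9673d9_co.EmptySectors

/-- some plane through two distinct points of `S` has imbalance at most `C` -/
def Balanced (S : Finset (Fin 3 → ℝ)) (C : ℤ) : Prop :=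
  ∃ p ∈ S, ∃ q ∈ S, p ≠ q ∧
    ∃ v : Fin 3 → ℝ, v ≠ 0 ∧ ∃ c : ℝ,
      (∑ i, v i * p i = c) ∧ (∑ i, v i * q i = c) ∧
      |((S.filter (fun x => ∑ i, v i * x i < c)).card : ℤ)
        - ((S.filter (fun x => c < ∑ i, v i * x i)).card : ℤ)| ≤ C

/-- the number of points of `S` on the open ray from `x` in the direction `w` -/
noncomputable def rayCount (S : Finset (Fin 3 → ℝ)) (x w : Fin 3 → ℝ) : ℕ :=
  {y | y ∈ S ∧ ∃ t : ℝ, 0 < t ∧ y = x + t • w}.ncard

/-- `x` is the apex of three independent rays with more than `C` points of `S` more than the opposite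
rays, and the open sectors (and the opposite ones) between the first ray and the others are empty -/
def Corner (S : Finset (Fin 3 → ℝ)) (C : ℕ) : Prop :=
  ∃ x ∈ S, ∃ g f f' : Fin 3 → ℝ, LinearIndependent ℝ ![g, f, f'] ∧
    C + rayCount S x (-g) < rayCount S x g ∧
    C + rayCount S x (-f) < rayCount S x f ∧
    C + rayCount S x (-f') < rayCount S x f' ∧
    ∀ a b : ℝ, 0 < a * b → x + (a • g + b • f) ∉ S ∧ x + (a • g + b • f') ∉ S

theorem rayCount_eq (S : Finset (Fin 3 → ℝ)) (x w : Fin 3 → ℝ) :
    rayCount S x w = Pool.Agent.MP_9673d9_co.Sweep.ray S x w := by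
  classical
  rw [rayCount, Pool.Agent.MP_9673d9_co.Sweep.ray, ← Set.ncard_coe_finset, Finset.coe_filter]

theorem odd_case (S : Finset (Fin 3 → ℝ)) (hodd : Odd S.card) (h3 : 3 ≤ S.card) (C : ℕ) :
    Balanced S C ∨ Corner S C := by
  classical
  obtain ⟨m, hm⟩ := hodd
  by_cases hU : Pool.Agent.MP_9673d9_co.Sweep.Unbal S C
  · right
    obtain ⟨x, hx, g, f, f', h1, h2, h4, h5, h6⟩ :=
      Pool.Agent.MP_9673d9_co.Sweep.corner (by simp) (by omega) hm hU
    refine ⟨x, hx, g, f, f', h1, ?_, ?_, ?_, h6⟩
    · rw [rayCount_eq, rayCount_eq]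
      exact h2
    · rw [rayCount_eq, rayCount_eq]
      exact h4
    · rw [rayCount_eq, rayCount_eq]
      exact h5
  · left
    obtain ⟨φ, hφ, p, hp, q, hq, hpq, hφpq, h1, h2⟩ :=
      Pool.Agent.MP_9673d9_co.Sweep.exists_of_not_unbal hU
    have hv : ∀ x : Fin 3 → ℝ, ∑ i, φ (Pi.single i 1) * x i = φ x := by
      intro x
      conv_rhs => rw [← Finset.univ_sum_single x, map_sum]
      refine Finset.sum_congr rfl fun i _ => ?_
      have h3 : (Pi.single i (x i) : Fin 3 → ℝ) = x i • Pi.single i 1 := by
        rw [← Pi.single_smul, smul_eq_mul, mul_one]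
      rw [h3, map_smul, smul_eq_mul, mul_comm]
    refine ⟨p, hp, q, hq, hpq, fun i => φ (Pi.single i 1), ?_, φ p, hv p, (hv q).trans hφpq.symm,
      ?_⟩
    · intro h
      apply hφ
      ext x
      have := congrFun h x
      simpa using this
    · simp only [hv]
      rw [abs_le]
      constructor <;> omega

theorem result :
    (∀ S : Finset (Fin 3 → ℝ), Odd S.card → 3 ≤ S.card → ∀ C : ℕ, Balanced S C ∨ Corner S C) ∧
    (∀ S : Finset (Fin 3 → ℝ), Even S.card → 4 ≤ S.card → ∀ z ∈ S, ∀ C : ℕ,
      Balanced S (C + 1) ∨ Corner (S.erase z) C) := by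
  classical
  refine ⟨fun S h1 h3 C => odd_case S h1 h3 C, fun S h1 h4 z hz C => ?_⟩
  have hcard := Finset.card_erase_of_mem hz
  have hodd : Odd (S.erase z).card := by
    rw [hcard]
    obtain ⟨k, hk⟩ := h1
    exact ⟨k - 1, by omega⟩
  rcases odd_case (S.erase z) hodd (by omega) C with h | h
  · left
    obtain ⟨p, hp, q, hq, hpq, v, hv, c, hc1, hc2, hb⟩ := h
    refine ⟨p, Finset.mem_of_mem_erase hp, q, Finset.mem_of_mem_erase hq, hpq, v, hv, c, hc1,
      hc2, ?_⟩
    have key : ∀ P : (Fin 3 → ℝ) → Prop,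
        ((S.erase z).filter P).card ≤ (S.filter P).card ∧
        (S.filter P).card ≤ ((S.erase z).filter P).card + 1 := by
      intro P
      constructor
      · exact Finset.card_le_card (Finset.filter_subset_filter _ (Finset.erase_subset _ _))
      · rw [Finset.filter_erase]
        have := Finset.pred_card_le_card_erase (s := S.filter P) (a := z)
        omega
    have k1 := key fun x => ∑ i, v i * x i < c
    have k2 := key fun x => c < ∑ i, v i * x i
    rw [abs_le] at hb ⊢
    constructor
    · have := hb.1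
      omega
    · have := hb.2
      omega
  · exact Or.inr h

end Pool.Agent.Results.MP_9673d9_co.EmptySectors
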