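import Pool.Agent.MP_9673d9_co.Rich.Lines
import Pool.Agent.MP_9673d9_co.Rich.Surf
import Pool.Agent.MP_9673d9_co.Rich.Bridge
import Pool.Agent.MP_9673d9_co.Conv.LiftB
import Pool.Agent.MP_9673d9_co.Conv.CoverC

/-!
# Rich planes through all pairs of points

Let `S` be a finite set in three-space.  If every plane through two points of `S` has large imbalance, then
through every two points of `S` there is a plane with very many lines with many points of `S`, and a plane with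
very many points of `S` in convex position.  Consequences: sets with few coplanar points in convex position, sets
covered by few planes, and subsets of algebraic surfaces.
-/

set_option autoImplicit false

open Finset

namespace Pool.Agent.Results.MP_9673d9_co.RichSections

/-- some plane through two distinct points of `S` has imbalance at most `C` -/
def Balanced (S : Finset (Fin 3 → ℝ)) (C : ℤ) : Prop :=
  ∃ p ∈ S, ∃ q ∈ S, p ≠ q ∧
    ∃ v : Fin 3 → ℝ, v ≠ 0 ∧ ∃ c : ℝ,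
      (∑ i, v i * p i = c) ∧ (∑ i, v i * q i = c) ∧
      |((S.filter (fun x => ∑ i, v i * x i < c)).card : ℤ)
        - ((S.filter (fun x => c < ∑ i, v i * x i)).card : ℤ)| ≤ C

/-- the plane `{x | v · x = c}` contains at least `N` lines with at least `r` points of `S` each -/
def HasRichLines (S : Finset (Fin 3 → ℝ)) (v : Fin 3 → ℝ) (c : ℝ) (N r : ℕ) : Prop :=
  ∃ 𝓛 : Finset (AffineSubspace ℝ (Fin 3 → ℝ)), N ≤ 𝓛.card ∧
    ∀ ℓ ∈ 𝓛, Module.finrank ℝ ℓ.direction = 1 ∧ (∀ x ∈ ℓ, ∑ i, v i * x i = c) ∧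
      r ≤ ((S : Set (Fin 3 → ℝ)) ∩ (ℓ : Set (Fin 3 → ℝ))).ncard

/-- `Z` is in strictly convex position: every point of `Z` is the unique maximum on `Z` of a functional `x ↦ u · x` -/
def ConvexPos (Z : Finset (Fin 3 → ℝ)) : Prop :=
  ∀ z ∈ Z, ∃ u : Fin 3 → ℝ, ∀ x ∈ Z, x ≠ z → ∑ i, u i * x i < ∑ i, u i * z i

theorem partA (S : Finset (Fin 3 → ℝ)) (x y : Fin 3 → ℝ) (hx : x ∈ S) (hy : y ∈ S) (hxy : x ≠ y)
    (j r : ℕ) (hr : 2 ≤ r) : Balanced S (r + 2 * j + 1) ∨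
      ∃ (v : Fin 3 → ℝ) (c : ℝ), v ≠ 0 ∧ ∑ i, v i * x i = c ∧ ∑ i, v i * y i = c ∧
        HasRichLines S v c (2 ^ j + 1) r := by
  by_cases hb : Balanced S (r + 2 * j + 1)
  · exact Or.inl hb
  right
  have hbad := Pool.Agent.MP_9673d9_co.Rich.hbad_of (C := (r : ℤ) + 2 * j + 1) hb
  obtain ⟨l, c, hl, hlx, hly, 𝓛, h1, h2⟩ := Pool.Agent.MP_9673d9_co.Rich.rich_lines S
    ((r : ℤ) + 2 * j + 1) j (by omega) hbad x y hx hy hxy
  refine ⟨fun i => l (Pi.single i 1), -c, Pool.Agent.MP_9673d9_co.Rich.coef_ne hl, ?_, ?_, 𝓛, h1,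
    fun ℓ hℓ => ?_⟩
  · rw [Pool.Agent.MP_9673d9_co.Rich.coef]
    linarith
  · rw [Pool.Agent.MP_9673d9_co.Rich.coef]
    linarith
  · obtain ⟨h3, h4, h5⟩ := h2 ℓ hℓ
    refine ⟨h3, fun z hz => ?_, by omega⟩
    rw [Pool.Agent.MP_9673d9_co.Rich.coef]
    linarith [h4 z hz]

theorem partB (S : Finset (Fin 3 → ℝ)) (x y : Fin 3 → ℝ) (hx : x ∈ S) (hy : y ∈ S) (hxy : x ≠ y)
    (j : ℕ) : Balanced S (2 * j + 3) ∨
      ∃ (v : Fin 3 → ℝ) (c : ℝ), v ≠ 0 ∧ ∑ i, v i * x i = c ∧ ∑ i, v i * y i = c ∧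
        ∃ Z ⊆ S, (∀ z ∈ Z, ∑ i, v i * z i = c) ∧ 2 ^ j ≤ Z.card ∧ ConvexPos Z := by
  by_cases hb : Balanced S (2 * j + 3)
  · exact Or.inl hb
  right
  obtain ⟨h, h0, h1, Z, hZ, h2, h3, h4⟩ := Pool.Agent.MP_9673d9_co.Conv.liftB S j x y hx hy hxy hb
  refine ⟨fun i => h (Pi.single i 1), h x, Pool.Agent.MP_9673d9_co.Rich.coef_ne h0, ?_, ?_, Z, hZ, ?_, h3, ?_⟩
  · rw [Pool.Agent.MP_9673d9_co.Rich.coef]
  · rw [Pool.Agent.MP_9673d9_co.Rich.coef, h1]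
  · intro z hz
    rw [Pool.Agent.MP_9673d9_co.Rich.coef, h2 z hz]
  · intro z hz
    obtain ⟨u, hu⟩ := h4 z hz
    refine ⟨fun i => u (Pi.single i 1), fun w hw hne => ?_⟩
    rw [Pool.Agent.MP_9673d9_co.Rich.coef, Pool.Agent.MP_9673d9_co.Rich.coef]
    exact hu w hw hne

/-- the functional `x ↦ v · x` -/
noncomputable def lin (v : Fin 3 → ℝ) : (Fin 3 → ℝ) →ₗ[ℝ] ℝ := ∑ i, v i • LinearMap.proj i

theorem lin_apply (v x : Fin 3 → ℝ) : lin v x = ∑ i, v i * x i := by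
  simp [lin]

theorem partC (S : Finset (Fin 3 → ℝ)) (hS : 2 ≤ S.card) (k : ℕ) (v : Fin k → (Fin 3 → ℝ)) (c : Fin k → ℝ)
    (hv : ∀ i, v i ≠ 0) (hc : ∀ x ∈ S, ∃ i, ∑ t, v i t * x t = c i) :
    Balanced S (2 * (Nat.clog 2 (2 * k + 1) : ℤ) + 3) := by
  refine Pool.Agent.MP_9673d9_co.Conv.cover_planes S hS (Nat.clog 2 (2 * k + 1)) k ?_ (fun i => lin (v i)) c ?_ ?_ ?_
  · exact Nat.le_pow_clog (by norm_num) (2 * k + 1)
  · intro i h0
    apply hv i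
    funext t
    have h1 : lin (v i) (Pi.single t 1) = 0 := by rw [h0]; rfl
    rw [lin_apply] at h1
    simpa [Pi.single_apply] using h1
  · intro x hx
    obtain ⟨i, hi⟩ := hc x hx
    exact ⟨i, by rw [lin_apply]; exact hi⟩
  · intro p hp q hq hpq hb
    exact Pool.Agent.MP_9673d9_co.Conv.liftB S _ p q hp hq hpq hb

theorem result :
    (∀ (S : Finset (Fin 3 → ℝ)) (x y : Fin 3 → ℝ), x ∈ S → y ∈ S → x ≠ y →
      (∀ j r : ℕ, 2 ≤ r → Balanced S (r + 2 * j + 1) ∨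
        ∃ (v : Fin 3 → ℝ) (c : ℝ), v ≠ 0 ∧ ∑ i, v i * x i = c ∧ ∑ i, v i * y i = c ∧
          HasRichLines S v c (2 ^ j + 1) r) ∧
      (∀ j : ℕ, Balanced S (2 * j + 3) ∨
        ∃ (v : Fin 3 → ℝ) (c : ℝ), v ≠ 0 ∧ ∑ i, v i * x i = c ∧ ∑ i, v i * y i = c ∧
          ∃ Z ⊆ S, (∀ z ∈ Z, ∑ i, v i * z i = c) ∧ 2 ^ j ≤ Z.card ∧ ConvexPos Z)) ∧
    (∀ (S : Finset (Fin 3 → ℝ)) (k : ℕ) (v : Fin k → (Fin 3 → ℝ)) (c : Fin k → ℝ), 2 ≤ S.card →
      (∀ i, v i ≠ 0) → (∀ x ∈ S, ∃ i, ∑ t, v i t * x t = c i) →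
      Balanced S (2 * (Nat.clog 2 (2 * k + 1) : ℤ) + 3)) ∧
    (∀ F : MvPolynomial (Fin 3) ℝ, F ≠ 0 → ∀ S : Finset (Fin 3 → ℝ), 2 ≤ S.card →
      Balanced S (F.totalDegree + 2 * (Nat.clog 2 F.totalDegree : ℤ) + 2 +
        ((S.filter (fun x => MvPolynomial.eval x F ≠ 0)).card : ℤ))) := by
  classical
  refine ⟨fun S x y hx hy hxy => ⟨fun j r hr => partA S x y hx hy hxy j r hr,
    fun j => partB S x y hx hy hxy j⟩, fun S k v c hS hv hc => partC S hS k v c hv hc, fun F hF S hS => ?_⟩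
  have hF0 : ∃ x : Fin 3 → ℝ, MvPolynomial.eval x F ≠ 0 := by
    by_contra h
    push Not at h
    exact hF (MvPolynomial.funext fun x => by rw [h x, map_zero])
  obtain ⟨l, c, hl, h2, h3⟩ := Pool.Agent.MP_9673d9_co.Rich.surface2' F.totalDegree
    (fun x => MvPolynomial.eval x F) (Pool.Agent.MP_9673d9_co.PF.of_mv F le_rfl) hF0 S hS
  exact Pool.Agent.MP_9673d9_co.Rich.balanced_of S _ l c hl h2 h3

end Pool.Agent.Results.MP_9673d9_co.RichSections
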